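import Mathlib
import Pool.Agent.N891.OR.Uni
import Pool.Agent.N918.EQ.Typ
import Pool.Agent.N24.RW.All
import Pool.Agent.N938.TD.YFam
import Pool.Agent.N938.TD.Cnt
import Pool.Agent.Results.MP_13bc7b_nt.GenericCount

/-!
# The preperiodic points of the members of every family of endomorphisms of `ℙ^N` along equidistributed
# sequences, metric sequences and random orbits of parameters

The starting result `GenericCount` is about the members of an arbitrary algebraic family of endomorphisms
of `ℙ^N` over a number field `k` with parameters in boxes: 100% of them have exactly as many preperiodic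
points of degree at most `B` over `k` as the generic member. The starting result `ThinFamilies` is about
sequences of parameters which are equidistributed modulo all integers over sets of times in `(T, 2T]`.

Here the parameters `t = (v_1 / v_0, ..., v_m / v_0)` come from ONE sequence `c 0, c 1, c 2, …` of
integral vectors, `S 0, S 1, …` are finite sets of times, and the property `GoodSequence` of `(S, c)`
means that for ALL number fields `k ⊂ ℂ` of degree `r`, all integral bases of `k`, ALL families of
endomorphisms with `m` parameters over `k` (all `N`, all degrees `d ≥ 2`) and all `B` the proportion of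
the times `n` in `S T` for which the member with the parameter vector `c n` has not exactly as many
preperiodic points of degree at most `B` over `k` as the generic member tends to zero, `T → ∞`.

**Theorem.** This property is typical (`Pool.Agent.N918.EQ.Typical`):

(1) All `(S, c)` have it for which `c` is equidistributed along `S` modulo all `q` prime to some number
(`S` is arbitrary: intervals, short intervals, the primes of an interval, any sparse sets).

For the sets of times `{0, ..., T - 1}`:

(2) For any Koksma sequences `f_{i,0}, f_{i,1}, ...` on intervals, for almost all `x` in the box the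
sequence `c n = (⌊f_{i,n}(x_i)⌋)_i` has it.

(3) For ARBITRARY real numbers `a_{i,n}` with `|a_{i,n} - a_{i,n'}| ≥ δ > 0`, `n ≠ n'` (any different
integers: factorials, `2 ^ n`, ...), for almost all real vectors `x` the sequence
`c n = (⌊a_{i,n} x_i⌋)_i` has it.

(4) For different natural numbers `k_n` and `ξ_i ≠ 0`, for almost all `x` with all `x_i > 1` the sequence
`c n = (⌊ξ_i x_i ^ (k_n)⌋)_i` has it.

(5) Let `s_0, ..., s_l` be integral matrices of determinant one, of the size of the vectors `c n`, which
generate the special linear group modulo all `q` prime to some number (by strong approximation: which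
generate a Zariski dense group, possibly of infinite index), and let `v ≠ 0`. For independent uniformly
distributed letters `w 0, w 1, ...` the random orbit `c n = s_{w (n-1)} ... s_{w 0} v` has it almost
surely.

In (2) - (5) there is ONE null set of `x`, or of words, for all number fields, bases, families and `B`.

Proof. The proof of `GenericCount` was repeated by helper938 for abstract notions of density with
Hilbert's irreducibility theorem (`Pool.Agent.N938.TD.Y.main5`). The pronull sets are the null sets of
such notions (`Pool.Agent.N891.OR`, helper891, with `Pool.Agent.N455.HT`, helper455), so the exceptional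
parameters of every family form a pronull set, and there are countably many families. Typical sequences
rarely visit pronull sets (`Pool.Agent.N918.EQ`, helper918, with the engines `Pool.Agent.N24.KM` for
metric sequences and `Pool.Agent.N24.RW` for random orbits).
-/

set_option autoImplicit false

open NumberField Filter Topology MeasureTheory
open Pool.Agent.N24.RW (ProNull)
open Pool.Agent.N918.EQ (Typical RareIn)
open Pool.Agent.Results.MP_13bc7b_nt.GenericCount (IsMorphism preper generic special)

namespace Pool.Agent.Results.MP_13bc7b_nt.GenericCountTypical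

/-- The proportion of the `n` in `S T` without the property `P` tends to zero, `T → ∞`. -/
def Usually (S : ℕ → Finset ℕ) (P : ℕ → Prop) : Prop :=
  ∀ ε : ℝ, 0 < ε → ∃ T₀ : ℕ, ∀ T : ℕ, T₀ ≤ T →
    (({n : ℕ | n ∈ S T ∧ ¬ P n}.ncard : ℕ) : ℝ) ≤ ε * (S T).card

/-- The vector of the integers `v_l = ∑_j w_{l j} ω_j` of `k`, `l = 0, …, m`. -/
noncomputable def vector {k : Type} [Field k] {J : Type} [Fintype J] (ω : Module.Basis J ℤ (𝓞 k))
    {m : ℕ} (w : Fin (m + 1) × J → ℤ) : Fin (m + 1) → 𝓞 k :=
  fun l => ∑ j : J, w (l, j) • ω j

/-- The member of the family `F` at `t = (v_1 / v_0, ..., v_m / v_0)` is defined, it is an endomorphism,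
and it has exactly as many preperiodic points of degree at most `B` as the generic member. -/
def LikeGeneric {k : Type} [Field k] {N m : ℕ}
    (F : Fin (N + 1) → MvPolynomial (Fin (N + 1)) (MvPolynomial (Fin m) k)) (B : ℕ)
    (v : Fin (m + 1) → 𝓞 k) : Prop :=
  v 0 ≠ 0 ∧ IsMorphism (special v F) ∧
    (preper (special v F) B).encard = (preper (generic F) B).encard

/-- For all number fields `k ⊂ ℂ`, all integral bases with `r` elements, all `N`, `d ≥ 2`, all families `F`
of endomorphisms of `ℙ^N` of degree `d` over `k` with `m` parameters and all `B`: the generic member has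
finitely many preperiodic points of degree at most `B` over `k(t_1, …, t_m)`, and for most of the times
`n` the member with the parameter vector `c n` has exactly as many over `k`. -/
def GoodSequence (r m : ℕ) (S : ℕ → Finset ℕ) (c : ℕ → Fin (m + 1) × Fin r → ℤ) : Prop :=
  ∀ (k : Subfield ℂ) [NumberField k] (ω : Module.Basis (Fin r) ℤ (𝓞 k)) (N d : ℕ), 2 ≤ d →
    ∀ F : Fin (N + 1) → MvPolynomial (Fin (N + 1)) (MvPolynomial (Fin m) k),
      (∀ i, (F i).IsHomogeneous d) → IsMorphism (generic F) → ∀ B : ℕ,
        (preper (generic F) B).Finite ∧ Usually S fun n => LikeGeneric F B (vector ω (c n))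

theorem vector_eq {k : Type} [Field k] [NumberField k] {J : Type} [Fintype J]
    (ω : Module.Basis J ℤ (𝓞 k)) {m : ℕ} (w : Fin (m + 1) × J → ℤ) :
    Pool.Agent.Y706.vec ω w = vector ω w := by
  funext l
  unfold Pool.Agent.Y706.vec Pool.Agent.W275.UB.cv vector
  refine Finset.sum_congr rfl fun j _ => ?_
  rw [zsmul_eq_mul, mul_comm]

/-- a family of endomorphisms over a number field in `ℂ`, with an integral basis -/
structure Fam (r m : ℕ) where
  k : Subfield ℂ
  hk : NumberField k
  N : ℕ
  d : ℕ
  B : ℕ
  ω : Module.Basis (Fin r) ℤ (𝓞 k)
  F : Fin (N + 1) → MvPolynomial (Fin (N + 1)) (MvPolynomial (Fin m) k)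
  hd : 2 ≤ d
  hF : ∀ i, (F i).IsHomogeneous d
  hmor : IsMorphism (generic F)

theorem fam_countable (r m : ℕ) : Countable (Fam r m) := by
  have h1 : Countable {k : Subfield ℂ // NumberField k} := Pool.Agent.N938.TD.nf_countable
  have h2 : ∀ k : {k : Subfield ℂ // NumberField k}, Countable k.1 := fun k => by
    have := k.2
    exact Pool.Agent.N938.TD.field_countable k.1
  have h3 : ∀ (k : {k : Subfield ℂ // NumberField k}),
      Countable (Module.Basis (Fin r) ℤ (𝓞 k.1)) := fun k =>
    Pool.Agent.N938.TD.basis_countable k.1 r
  have h4 : ∀ (k : {k : Subfield ℂ // NumberField k}) (n : ℕ),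
      Countable (MvPolynomial (Fin n) (MvPolynomial (Fin m) k.1)) := fun k n => by
    have := Pool.Agent.N938.TD.mv_countable m k.1
    exact Pool.Agent.N938.TD.mv_countable n _
  refine Function.Injective.countable (β := Σ (k : {k : Subfield ℂ // NumberField k})
    (N : ℕ) (_ : ℕ) (_ : ℕ), Module.Basis (Fin r) ℤ (𝓞 k.1) ×
      (Fin (N + 1) → MvPolynomial (Fin (N + 1)) (MvPolynomial (Fin m) k.1)))
    (f := fun f => ⟨⟨f.k, f.hk⟩, f.N, f.d, f.B, f.ω, f.F⟩) ?_
  rintro ⟨k, hk, N, d, B, ω, F, hd, hF, hmor⟩ ⟨k', hk', N', d', B', ω', F', hd', hF', hmor'⟩ h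
  cases h
  rfl

/-- The exceptional parameters of one family. -/
theorem key {k : Type} [Field k] [NumberField k] {J : Type} [Fintype J]
    (ω : Module.Basis J ℤ (𝓞 k)) {m N d : ℕ} (hd : 2 ≤ d)
    (F : Fin (N + 1) → MvPolynomial (Fin (N + 1)) (MvPolynomial (Fin m) k))
    (hF : ∀ i, (F i).IsHomogeneous d) (hmor : IsMorphism (generic F)) (B : ℕ) :
    (preper (generic F) B).Finite ∧
      ProNull {w : Fin (m + 1) × J → ℤ | ¬ LikeGeneric F B (vector ω w)} := by
  obtain ⟨h1, h2⟩ := Pool.Agent.N938.TD.Y.main5 k N d hd m F hF hmor B
  refine ⟨h1, fun M hM => ?_⟩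
  have h3 := h2 J ω (Pool.Agent.N891.OYU.denPro _ M hM)
  intro ε hε
  refine Pool.Agent.N891.OR.UDM.mono (h3 ε hε) ?_
  intro w hw hgood
  apply hw
  rw [vector_eq] at hgood
  exact hgood

/-- **The preperiodic points of the members of every family of endomorphisms of projective spaces along
typical sequences of parameters.** (1) For all `r ≥ 1` and `m ≥ 1` the property `GoodSequence r m` is
typical. (2) For all number fields `k`, all integral bases, all `N`, `d ≥ 2`, `m`, all families `F` of
endomorphisms of `ℙ^N` of degree `d` over `k` with `m` parameters and all `B` the parameter vectors at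
which the member is not like the generic member form a pronull set. -/
theorem result :
    (∀ r m : ℕ, 1 ≤ r → 1 ≤ m → Typical (GoodSequence r m)) ∧
    ∀ (k : Type) [Field k] [NumberField k] (J : Type) [Fintype J] (ω : Module.Basis J ℤ (𝓞 k))
      (N d m : ℕ), 2 ≤ d →
      ∀ F : Fin (N + 1) → MvPolynomial (Fin (N + 1)) (MvPolynomial (Fin m) k),
        (∀ i, (F i).IsHomogeneous d) → IsMorphism (generic F) → ∀ B : ℕ,
          ProNull {w : Fin (m + 1) × J → ℤ | ¬ LikeGeneric F B (vector ω w)} := by
  refine ⟨fun r m hr hm => ?_, fun k _ _ J _ ω N d m hd F hF hmor B => (key ω hd F hF hmor B).2⟩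
  have := fam_countable r m
  refine Pool.Agent.N918.EQ.typical_of ?_ _ ?_
  · rw [Fintype.card_prod, Fintype.card_fin, Fintype.card_fin]
    nlinarith
  intro X _ ν P S c hR
  have h1 : ∀ᵐ x ∂ν, ∀ f : Fam r m, P x → RareIn S (c x)
      {w : Fin (m + 1) × Fin r → ℤ | ¬ LikeGeneric f.F f.B (vector f.ω w)} := by
    rw [ae_all_iff]
    intro f
    have := f.hk
    exact hR _ (key f.ω f.hd f.F f.hF f.hmor f.B).2
  filter_upwards [h1] with x hx hP
  intro k hk ω N d hd F hF hmor B
  exact ⟨(key ω hd F hF hmor B).1, hx ⟨k, hk, N, d, B, ω, F, hd, hF, hmor⟩ hP⟩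

end Pool.Agent.Results.MP_13bc7b_nt.GenericCountTypical
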