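import Mathlib
import Pool.Agent.L5helper9.Cy2

/-!
# Rational cycles of endomorphisms of `P^N` whose length is exponential in `N`

For fixed degree `d` the constants in the Morton–Silverman conjecture, and already the exact periods of the
`ℚ`-rational periodic points, grow exponentially with the dimension `N`: there are endomorphisms of degree `d` of
`P^N` over `ℚ` with rational points of exact period `2 ^ (N + 1) - 1`, and others with rational points of exact
period at least `d ^ (N - 5 √N)`.

Proof. (1) On `{0, 1}` one has `x = x ^ d`, and the sum modulo 2 is `x ^ d + y ^ d - 2 x y ^ (d - 1)`. So the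
multiplication by a generator of the multiplicative group of the field with `2 ^ (N + 1)` elements, in the basis of its
powers, is given on the `0-1`-vectors by forms of degree `d`, which have no common zero.
(2) A counter with digits `0, …, d - 1` is realised by a cyclic shift register of length `a b` through which the
digits pass a cell that adds the carry. The carry is reset by a clock which consists of two rings of coprime
lengths `a`, `b`. All the functions of the machine are polynomials of degree at most `d`, and they can be changed, without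
changing the values at the states of the machine, such that there is no common zero at infinity.
-/

set_option autoImplicit false

namespace Pool.Agent.Results.MP_13bc7b_nt.LongCycles

open MvPolynomial

/-- the map of the coordinate vectors given by `N + 1` forms -/
noncomputable def selfMap {N : ℕ} (F : Fin (N + 1) → MvPolynomial (Fin (N + 1)) ℚ)
    (x : Fin (N + 1) → ℚ) : Fin (N + 1) → ℚ := fun i => eval x (F i)

/-- `F` defines an endomorphism of degree `d` of `P^N` over `ℚ`: `N + 1` forms of degree `d` without common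
zero -/
def IsEndomorphism {N : ℕ} (d : ℕ) (F : Fin (N + 1) → MvPolynomial (Fin (N + 1)) ℚ) : Prop :=
  (∀ i, (F i).IsHomogeneous d) ∧
    ∀ x : Fin (N + 1) → AlgebraicClosure ℚ, (∀ i, aeval x (F i) = 0) → x = 0

/-- the coordinate vectors `x` and `y` define the same point -/
def SamePoint {N : ℕ} (x y : Fin (N + 1) → ℚ) : Prop := ∃ c : ℚ, c ≠ 0 ∧ x = c • y

/-- the point of `P^N(ℚ)` with the coordinate vector `x ≠ 0` is periodic with exact period `n` -/
def HasExactPeriod {N : ℕ} (F : Fin (N + 1) → MvPolynomial (Fin (N + 1)) ℚ) (x : Fin (N + 1) → ℚ)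
    (n : ℕ) : Prop :=
  x ≠ 0 ∧ 0 < n ∧ SamePoint ((selfMap F)^[n] x) x ∧
    ∀ m : ℕ, 0 < m → m < n → ¬ SamePoint ((selfMap F)^[m] x) x

theorem conv {N d n : ℕ} {F : Fin (N + 1) → MvPolynomial (Fin (N + 1)) ℚ} {x : Fin (N + 1) → ℚ}
    (h1 : Pool.Agent.L5helper9.Cy.End d F) (h2 : Pool.Agent.L5helper9.Cy.Per F x n) (hn : 0 < n) :
    IsEndomorphism d F ∧ HasExactPeriod F x n := by
  refine ⟨h1, h2.1, hn, (h2.2 n).2 dvd_rfl, fun m hm hmn h => ?_⟩
  have := (h2.2 m).1 h
  exact absurd (Nat.le_of_dvd hm this) (not_le.2 hmn)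

/-- **Theorem.** Let `d ≥ 2`. (1) For all `N ≥ 1` there is an endomorphism of degree `d` of `P^N` over `ℚ` with a
`ℚ`-rational periodic point of exact period `2 ^ (N + 1) - 1`. (2) For all coprime `a, b ≥ 1` and all
`N ≥ a b + a + b + 2` there is one with a `ℚ`-rational periodic point of exact period `a b d ^ (a b - 1)`. (3) For all
`N ≥ 1` there is one with a `ℚ`-rational periodic point of exact period at least `d ^ (N - 5 √N)`. -/
theorem result :
    (∀ N d : ℕ, 1 ≤ N → 2 ≤ d → ∃ (F : Fin (N + 1) → MvPolynomial (Fin (N + 1)) ℚ)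
      (x : Fin (N + 1) → ℚ), IsEndomorphism d F ∧ HasExactPeriod F x (2 ^ (N + 1) - 1)) ∧
    (∀ N d a b : ℕ, 2 ≤ d → 1 ≤ a → 1 ≤ b → Nat.Coprime a b → a * b + a + b + 2 ≤ N →
      ∃ (F : Fin (N + 1) → MvPolynomial (Fin (N + 1)) ℚ) (x : Fin (N + 1) → ℚ),
        IsEndomorphism d F ∧ HasExactPeriod F x (a * b * d ^ (a * b - 1))) ∧
    (∀ N d : ℕ, 1 ≤ N → 2 ≤ d → ∃ (F : Fin (N + 1) → MvPolynomial (Fin (N + 1)) ℚ)
      (x : Fin (N + 1) → ℚ) (n : ℕ), IsEndomorphism d F ∧ HasExactPeriod F x n ∧
        (d : ℝ) ^ ((N : ℝ) - 5 * √N) ≤ n) := by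
  refine ⟨fun N d _ hd => ?_, fun N d a b hd ha hb hab hN => ?_, fun N d _ hd => ?_⟩
  · obtain ⟨F, x, h1, h2⟩ := Pool.Agent.L5helper9.Cy.binary N d hd
    refine ⟨F, x, conv h1 h2 ?_⟩
    have : 2 ^ 1 ≤ 2 ^ (N + 1) := Nat.pow_le_pow_right (by norm_num) (by omega)
    omega
  · obtain ⟨r, rfl⟩ := Nat.exists_eq_add_of_le hN
    obtain ⟨F, x, h1, h2⟩ := Pool.Agent.L5helper9.Cy.odo a b r d hd ha hb hab
    exact ⟨F, x, conv h1 h2 (by positivity)⟩
  · obtain ⟨F, x, n, h1, h2, h3⟩ := Pool.Agent.L5helper9.Cy.long N d hd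
    have hn : 0 < n := by
      have h4 : (0 : ℝ) < (d : ℝ) ^ ((N : ℝ) - 5 * √N) :=
        Real.rpow_pos_of_pos (by exact_mod_cast (show 0 < d by omega)) _
      have h5 : (0 : ℝ) < n := h4.trans_le h3
      exact_mod_cast h5
    obtain ⟨h4, h5⟩ := conv h1 h2 hn
    exact ⟨F, x, n, h4, h5, h3⟩

end Pool.Agent.Results.MP_13bc7b_nt.LongCycles
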