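import Mathlib
import Pool.Agent.N891.OR.Uni
import Pool.Agent.N938.TD.Cnt
import Pool.Agent.N918.EQ.Typ
import Pool.Agent.N24.RW.All

/-!
# Uniform boundedness of preperiodic points along equidistributed sequences and metric sequences of
# endomorphisms, for all number fields of a given degree at the same time

The starting result `OneHundredPercent` shows: for all `N`, `d ≥ 2`, `D` there is a constant `C` such that
over every number field `k` 100% of the endomorphisms of `ℙ^N` of degree `d`, ordered by boxes of integral
coefficients, have at most `C` preperiodic points in `ℙ^N(K)` for all number fields `K ⊇ k` of degree at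
most `D` over `ℚ`. The starting result `UniformRandomOrbits` shows this along random orbits of thin groups.

Here the coefficient vectors form ONE sequence `c 0, c 1, c 2, …` of integral vectors, `S 0, S 1, …` are
finite sets of times, and the property `GoodSequence` of `(S, c)` means that for ALL number fields
`k ⊂ ℂ` of degree `r`, ALL integral bases of `k` (which turn the vectors into systems of `N + 1` forms of
degree `d` in `N + 1` variables over the integers of `k`) and ALL `D` the proportion of the times `n` in
`S T` for which the system `c n` is not an endomorphism of `ℙ^N` with at most `C(D)` preperiodic points in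
`ℙ^N(K)` for all number fields `K ⊇ k` of degree at most `D` over `ℚ` tends to zero, `T → ∞`. The function
`C` depends on `N` and `d` only.

**Theorem.** This property is typical (`Pool.Agent.N918.EQ.Typical`):

(1) All `(S, c)` have it for which `c` is equidistributed along `S` modulo all `q` prime to some number
(`S` is arbitrary: intervals, short intervals, the primes of an interval, any sparse sets).

For the sets of times `{0, ..., T - 1}`:

(2) For any Koksma sequences `f_{i,0}, f_{i,1}, ...` on intervals, for almost all `x` in the box the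
sequence `c n = (⌊f_{i,n}(x_i)⌋)_i` has it.

(3) For ARBITRARY real numbers `a_{i,n}` with `|a_{i,n} - a_{i,n'}| ≥ δ > 0`, `n ≠ n'` (any different
integers: factorials, `2 ^ n`, ...), for almost all real vectors `x` the sequence
`c n = (⌊a_{i,n} x_i⌋)_i` has it.

(4) For different natural numbers `k_n` and `ξ_i ≠ 0`, for almost all `x` with all `x_i > 1` the sequence
`c n = (⌊ξ_i x_i ^ (k_n)⌋)_i` has it.

(5) Let `s_0, ..., s_l` be integral matrices of determinant one, of the size of the vectors `c n`, which
generate the special linear group modulo all `q` prime to some number (by strong approximation: which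
generate a Zariski dense group, possibly of infinite index), and let `v ≠ 0`. For independent uniformly
distributed letters `w 0, w 1, ...` the random orbit `c n = s_{w (n-1)} ... s_{w 0} v` has it almost
surely.

In (2) - (5) there is ONE null set of `x`, or of words, for all number fields, bases and `D`.

Proof. The proof of `OneHundredPercent` (project UB of helper275) was repeated by helper938 for abstract
notions of density with Hilbert's irreducibility theorem (`Pool.Agent.N938.TD`), and the pronull sets are the
null sets of such notions (`Pool.Agent.N891.OR`, helper891, with `Pool.Agent.N455.HT`, helper455). There are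
countably many number fields in `ℂ` with integral bases. Typical sequences rarely visit pronull sets
(`Pool.Agent.N918.EQ`, helper918, with the engines `Pool.Agent.N24.KM` for metric sequences and
`Pool.Agent.N24.RW` for random orbits).
-/

set_option autoImplicit false

open MvPolynomial NumberField Filter Topology MeasureTheory
open Pool.Agent.N24.RW (ProNull)
open Pool.Agent.N918.EQ (Typical RareIn)

namespace Pool.Agent.Results.MP_13bc7b_nt.UniformTypicalSequences

/-- The proportion of the `n` in `S T` without the property `P` tends to zero, `T → ∞`. -/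
def Usually (S : ℕ → Finset ℕ) (P : ℕ → Prop) : Prop :=
  ∀ ε : ℝ, 0 < ε → ∃ T₀ : ℕ, ∀ T : ℕ, T₀ ≤ T →
    (({n : ℕ | n ∈ S T ∧ ¬ P n}.ncard : ℕ) : ℝ) ≤ ε * (S T).card

/-- The self-map of `K^(N+1)` given by forms `F` with coefficients in the ring of integers of `k`. -/
noncomputable def selfMap {k : Type} [Field k] [NumberField k] (K : Type) [Field K] [Algebra k K]
    {N : ℕ} (F : Fin (N + 1) → MvPolynomial (Fin (N + 1)) (𝓞 k)) (x : Fin (N + 1) → K) :
    Fin (N + 1) → K :=
  fun i => eval x (map ((algebraMap k K).comp (algebraMap (𝓞 k) k)) (F i))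

/-- `F` defines an endomorphism of `P^N` over `k`, and for all number fields `K` containing `k` of
degree at most `D` over `ℚ` it has at most `C` preperiodic points in `P^N(K)`: every finite set of
pairwise non proportional non zero vectors of `K^(N+1)` which are preperiodic up to scalars has at most
`C` elements. -/
def Bounded {k : Type} [Field k] [NumberField k] {N : ℕ} (D C : ℕ)
    (F : Fin (N + 1) → MvPolynomial (Fin (N + 1)) (𝓞 k)) : Prop :=
  (∀ x : Fin (N + 1) → AlgebraicClosure k, selfMap (AlgebraicClosure k) F x = 0 → x = 0) ∧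
    ∀ (K : Type) [Field K] [NumberField K] [Algebra k K], Module.finrank ℚ K ≤ D →
      ∀ X : Finset (Fin (N + 1) → K), (∀ x ∈ X, x ≠ 0) →
        (∀ x ∈ X, ∀ y ∈ X, ∀ c : K, x = c • y → x = y) →
        (∀ x ∈ X, ∃ m n : ℕ, m < n ∧ ∃ c : K, c ≠ 0 ∧
          (selfMap K F)^[n] x = c • (selfMap K F)^[m] x) → X.card ≤ C

/-- The exponent vectors of degree `d` in `N + 1` variables. -/
abbrev Exps (N d : ℕ) : Type := {κ : Fin (N + 1) → Fin (d + 1) // ∑ i, (κ i : ℕ) = d}

/-- The system of `N + 1` forms of degree `d` in `N + 1` variables over the ring of integers of `k`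
whose coefficients have the coordinates `c` with respect to the integral basis `ω`. -/
noncomputable def system {k : Type} [Field k] [NumberField k] {J : Type} [Fintype J]
    (ω : Module.Basis J ℤ (𝓞 k)) {N d : ℕ} (c : (Fin (N + 1) × Exps N d) × J → ℤ) :
    Fin (N + 1) → MvPolynomial (Fin (N + 1)) (𝓞 k) :=
  fun i => ∑ κ : Exps N d, monomial (Finsupp.equivFunOnFinite.symm fun l => (κ.1 l : ℕ))
    (∑ j, (c ((i, κ), j) : 𝓞 k) * ω j)

theorem exps_nonempty (N d : ℕ) : Nonempty (Exps N d) :=
  ⟨⟨Pi.single 0 (Fin.last d), by
    rw [Finset.sum_eq_single (0 : Fin (N + 1))]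
    · simp
    · intro i _ hi
      simp [Pi.single_eq_of_ne hi]
    · intro h
      exact absurd (Finset.mem_univ _) h⟩⟩

theorem system_eq {k : Type} [Field k] [NumberField k] {J : Type} [Fintype J]
    (ω : Module.Basis J ℤ (𝓞 k)) {N d : ℕ} (c : (Fin (N + 1) × Exps N d) × J → ℤ) :
    system ω c = Pool.Agent.W275.UB.Ph ω c := by
  funext i
  refine Finset.sum_congr rfl fun κ _ => ?_
  congr 1
  exact Finset.sum_congr rfl fun j _ => mul_comm _ _

theorem card_le (N d r : ℕ) (hN : 1 ≤ N) (hr : 1 ≤ r) :
    2 ≤ Fintype.card ((Fin (N + 1) × Exps N d) × Fin r) := by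
  have h2 : 0 < Fintype.card (Exps N d) := Fintype.card_pos_iff.2 (exps_nonempty N d)
  rw [Fintype.card_prod, Fintype.card_prod, Fintype.card_fin, Fintype.card_fin]
  calc 2 ≤ (N + 1) := by omega
    _ = (N + 1) * 1 * 1 := by ring
    _ ≤ _ := Nat.mul_le_mul (Nat.mul_le_mul le_rfl h2) hr

/-- the number fields in `ℂ` with an integral basis with `r` elements -/
abbrev Fld (r : ℕ) : Type :=
  Σ k : {k : Subfield ℂ // NumberField k}, Module.Basis (Fin r) ℤ (𝓞 k.1)

theorem fld_countable (r : ℕ) : Countable (Fld r) := by
  have h1 : Countable {k : Subfield ℂ // NumberField k} := Pool.Agent.N938.TD.nf_countable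
  have h3 : ∀ k : {k : Subfield ℂ // NumberField k},
      Countable (Module.Basis (Fin r) ℤ (𝓞 k.1)) := fun k => by
    have := k.2
    have := Pool.Agent.N938.TD.field_countable k.1
    exact Pool.Agent.N938.TD.basis_countable k.1 r
  infer_instance

/-- For all number fields `k ⊂ ℂ`, all integral bases with `r` elements and all `D`: for most of the times
the system with the coefficient vector `c n` is an endomorphism with at most `C D` preperiodic points over
all number fields `K ⊇ k` of degree at most `D`. -/
def GoodSequence (C : ℕ → ℕ) (N d r : ℕ) (S : ℕ → Finset ℕ)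
    (c : ℕ → (Fin (N + 1) × Exps N d) × Fin r → ℤ) : Prop :=
  ∀ (k : Subfield ℂ) [NumberField k] (ω : Module.Basis (Fin r) ℤ (𝓞 k)) (D : ℕ),
    Usually S fun n => Bounded D (C D) (system ω (c n))

/-- **Uniform boundedness along typical sequences of endomorphisms.** For all `N ≥ 1` and `d ≥ 2` there is
ONE function `C` such that for all `r ≥ 1` the property `GoodSequence C N d r` is typical. -/
theorem result (N d : ℕ) (hN : 1 ≤ N) (hd : 2 ≤ d) : ∃ C : ℕ → ℕ,
    ∀ r : ℕ, 1 ≤ r → Typical (GoodSequence C N d r) := by
  choose C hC using fun D => Pool.Agent.N891.OYU.uni N d D hd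
  refine ⟨C, fun r hr => ?_⟩
  have key : ∀ (k : Subfield ℂ) [NumberField k] (ω : Module.Basis (Fin r) ℤ (𝓞 k)) (D : ℕ),
      ProNull {c : (Fin (N + 1) × Exps N d) × Fin r → ℤ | ¬ Bounded D (C D) (system ω c)} := by
    intro k _ ω D
    refine (Pool.Agent.N24.RW.clo _).1 _ _ ?_ (hC D (𝓞 k) (Fin r) ω)
    intro c hc hB
    apply hc
    rw [system_eq]
    refine ⟨?_, ?_⟩
    · exact (hB (AlgebraicClosure k)
        ((algebraMap k (AlgebraicClosure k)).comp (algebraMap (𝓞 k) k))).1
    · intro K _ _ _ hK
      exact (hB K ((algebraMap k K).comp (algebraMap (𝓞 k) k))).2 inferInstance hK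
  have := fld_countable r
  refine Pool.Agent.N918.EQ.typical_of (card_le N d r hN hr) _ ?_
  intro X _ ν P S c hR
  have h1 : ∀ᵐ x ∂ν, ∀ q : Fld r × ℕ, P x → RareIn S (c x)
      {c : (Fin (N + 1) × Exps N d) × Fin r → ℤ |
        ¬ @Bounded q.1.1.1 _ q.1.1.2 N q.2 (C q.2) (@system q.1.1.1 _ q.1.1.2 (Fin r) _ q.1.2 N d c)} := by
    rw [ae_all_iff]
    rintro ⟨⟨⟨k, hk⟩, ω⟩, D⟩
    exact hR _ (@key k hk ω D)
  filter_upwards [h1] with x hx hP
  intro k hk ω D
  exact hx (⟨⟨k, hk⟩, ω⟩, D) hP

end Pool.Agent.Results.MP_13bc7b_nt.UniformTypicalSequences
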